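import Pool.Agent.W447.LT.Stm

/-!
Project LT (owner helper447): affine maps of truncated polynomials, the statements `KW` and `IW`.
-/

set_option autoImplicit false

namespace Pool.Agent.W565.LT

open Pool.Agent.W447.LT Polynomial

variable {N : ℕ} {S : Type} (δ : S → E N → Option (S × Up N))

theorem tail_fix (g : Gn N S) (hg : ∀ j : Fin 3, (base δ).perm g (Sum.inr j) = Sum.inr j)
    {s : List (A N)} (hs : s = [] ∨ ∃ j : Fin 3, s = [Sum.inr j]) :
    (base δ).act s [(g, true)] = s := by
  rcases hs with rfl | ⟨j, rfl⟩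
  · rfl
  · rw [act_gen, hg]
    rfl

theorem divX_mul_one_add (p : (ZMod 2)[X]) :
    (p * (1 + X)).divX = p.divX * (1 + X) + Polynomial.C (p.coeff 0) := by
  ext n
  rw [coeff_divX, mul_add, mul_one, coeff_add, coeff_mul_X, coeff_add, mul_add, mul_one, coeff_add,
    coeff_divX]
  cases n with
  | zero => simp [mul_coeff_zero]
  | succ n => simp [coeff_mul_X, coeff_divX]

theorem coeff_zero_mul_one_add (p : (ZMod 2)[X]) : (p * (1 + X)).coeff 0 = p.coeff 0 := by
  simp [mul_coeff_zero]

theorem act_al (i : ℕ) (c : C N) {s : List (A N)} (hs : s = [] ∨ ∃ j : Fin 3, s = [Sum.inr j]) :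
    (base δ).act (tr i c ++ s) [(Gn.al, true)] = tr i (c.1 + 1, c.2) ++ s := by
  cases i with
  | zero => exact tail_fix δ _ (fun j => rfl) hs
  | succ i =>
    show (base δ).act (Sum.inl (hd c) :: (tr i (tl c) ++ s)) _ =
      Sum.inl (hd (c.1 + 1, c.2)) :: (tr i (tl (c.1 + 1, c.2)) ++ s)
    rw [act_gen]
    have h1 : (base δ).perm Gn.al (Sum.inl (hd c)) = Sum.inl (hd (c.1 + 1, c.2)) := by
      simp [base, onE, pAl, hd]
    have h2 : (base δ).sec Gn.al (Sum.inl (hd c)) = [] := rfl
    have h3 : tl (c.1 + 1, c.2) = tl c := by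
      simp [tl, divX_add, divX_one]
    rw [h1, h2, h3, act_one]

theorem act_be (f : Fin N → ZMod 2) (i : ℕ) (c : C N) {s : List (A N)}
    (hs : s = [] ∨ ∃ j : Fin 3, s = [Sum.inr j]) :
    (base δ).act (tr i c ++ s) [(Gn.be f, true)] =
      tr i (c.1, (fun r => c.2.1 r + Polynomial.C (f r)), c.2.2) ++ s := by
  cases i with
  | zero => exact tail_fix δ _ (fun j => rfl) hs
  | succ i =>
    show (base δ).act (Sum.inl (hd c) :: (tr i (tl c) ++ s)) _ =
      Sum.inl (hd (c.1, (fun r => c.2.1 r + Polynomial.C (f r)), c.2.2)) ::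
        (tr i (tl (c.1, (fun r => c.2.1 r + Polynomial.C (f r)), c.2.2)) ++ s)
    rw [act_gen]
    have h1 : (base δ).perm (Gn.be f) (Sum.inl (hd c)) =
        Sum.inl (hd (c.1, (fun r => c.2.1 r + Polynomial.C (f r)), c.2.2)) := by
      simp only [base, onE, pBe, hd, Equiv.sumCongr_apply, Sum.map_inl, Equiv.prodCongr_apply,
        Prod.map_apply, Equiv.refl_apply, Equiv.coe_addRight, coeff_add, coeff_C_zero]
      rfl
    have h2 : (base δ).sec (Gn.be f) (Sum.inl (hd c)) = [] := rfl
    have h3 : tl (c.1, (fun r => c.2.1 r + Polynomial.C (f r)), c.2.2) = tl c := by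
      simp [tl, divX_add, divX_C]
    rw [h1, h2, h3, act_one]

theorem act_mu (i : ℕ) (c : C N) {s : List (A N)} (hs : s = [] ∨ ∃ j : Fin 3, s = [Sum.inr j]) :
    (base δ).act (tr i c ++ s) [(Gn.mu, true)] = tr i (c.1 * (1 + X), c.2) ++ s := by
  induction i generalizing c with
  | zero => exact tail_fix δ _ (fun j => rfl) hs
  | succ i ih =>
    show (base δ).act (Sum.inl (hd c) :: (tr i (tl c) ++ s)) _ =
      Sum.inl (hd (c.1 * (1 + X), c.2)) :: (tr i (tl (c.1 * (1 + X), c.2)) ++ s)
    rw [act_gen]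
    have h1 : (base δ).perm Gn.mu (Sum.inl (hd c)) = Sum.inl (hd (c.1 * (1 + X), c.2)) := by
      show Sum.inl (hd c) = Sum.inl (hd (c.1 * (1 + X), c.2))
      simp only [hd, coeff_zero_mul_one_add]
    have h2 : (base δ).sec Gn.mu (Sum.inl (hd c)) =
        (if (hd c).1 = 0 then [] else [(Gn.al, true)]) ++ [(Gn.mu, true)] := rfl
    have h3 : (tl (c.1 * (1 + X), c.2) : C N) =
        ((tl c).1 * (1 + X) + Polynomial.C ((hd c).1), (tl c).2) := by
      simp only [tl, hd, divX_mul_one_add]
    rw [h1, h2, h3, act_append, ih]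
    congr 1
    by_cases h0 : (hd c).1 = 0
    · rw [if_pos h0, act_one, h0]
      simp
    · have h01 : (hd c).1 = 1 := by
        generalize (hd c).1 = a at h0
        revert h0
        revert a
        decide
      rw [if_neg h0, act_al δ i _ hs, h01]
      simp

theorem act_la (i : ℕ) (c : C N) {s : List (A N)} (hs : s = [] ∨ ∃ j : Fin 3, s = [Sum.inr j]) :
    (base δ).act (tr i c ++ s) [(Gn.la, true)] =
      tr i (c.1, (fun r => c.2.1 r * (1 + X)), c.2.2) ++ s := by
  induction i generalizing c with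
  | zero => exact tail_fix δ _ (fun j => rfl) hs
  | succ i ih =>
    show (base δ).act (Sum.inl (hd c) :: (tr i (tl c) ++ s)) _ =
      Sum.inl (hd (c.1, (fun r => c.2.1 r * (1 + X)), c.2.2)) ::
        (tr i (tl (c.1, (fun r => c.2.1 r * (1 + X)), c.2.2)) ++ s)
    rw [act_gen]
    have h1 : (base δ).perm Gn.la (Sum.inl (hd c)) =
        Sum.inl (hd (c.1, (fun r => c.2.1 r * (1 + X)), c.2.2)) := by
      show Sum.inl (hd c) = Sum.inl (hd (c.1, (fun r => c.2.1 r * (1 + X)), c.2.2))
      simp only [hd, coeff_zero_mul_one_add]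
    have h2 : (base δ).sec Gn.la (Sum.inl (hd c)) =
        [(Gn.be (hd c).2.1, true)] ++ [(Gn.la, true)] := rfl
    have h3 : (tl (c.1, (fun r => c.2.1 r * (1 + X)), c.2.2) : C N) =
        ((tl c).1, (fun r => (tl c).2.1 r * (1 + X) + Polynomial.C ((hd c).2.1 r)),
          (tl c).2.2) := by
      simp only [tl, hd, divX_mul_one_add]
    rw [h1, h2, h3, act_append, ih, act_be δ _ i _ hs]

theorem act_sg (i : ℕ) (c : C N) {s : List (A N)} (hs : s = [] ∨ ∃ j : Fin 3, s = [Sum.inr j]) :
    (base δ).act (tr i c ++ s) [(Gn.sg, true)] = tr i (c.1, c.2.2, c.2.1) ++ s := by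
  induction i generalizing c with
  | zero => exact tail_fix δ _ (fun j => rfl) hs
  | succ i ih =>
    show (base δ).act (Sum.inl (hd c) :: (tr i (tl c) ++ s)) _ =
      Sum.inl (hd (c.1, c.2.2, c.2.1)) :: (tr i (tl (c.1, c.2.2, c.2.1)) ++ s)
    rw [act_gen]
    have h1 : (base δ).perm Gn.sg (Sum.inl (hd c)) = Sum.inl (hd (c.1, c.2.2, c.2.1)) := rfl
    have h2 : (base δ).sec Gn.sg (Sum.inl (hd c)) = [(Gn.sg, true)] := rfl
    have h3 : (tl (c.1, c.2.2, c.2.1) : C N) = ((tl c).1, (tl c).2.2, (tl c).2.1) := rfl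
    rw [h1, h2, h3, ih]

theorem act_nu (f : Fin N → ZMod 2) (i : ℕ) (c : C N) {s : List (A N)}
    (hs : s = [] ∨ ∃ j : Fin 3, s = [Sum.inr j]) :
    (base δ).act (tr i c ++ s) [(Gn.nu f, true)] =
      tr i (c.1, c.2.1, fun r => c.2.2 r + Polynomial.C (f r) * c.1) ++ s := by
  induction i generalizing c with
  | zero => exact tail_fix δ _ (fun j => rfl) hs
  | succ i ih =>
    show (base δ).act (Sum.inl (hd c) :: (tr i (tl c) ++ s)) _ =
      Sum.inl (hd (c.1, c.2.1, fun r => c.2.2 r + Polynomial.C (f r) * c.1)) ::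
        (tr i (tl (c.1, c.2.1, fun r => c.2.2 r + Polynomial.C (f r) * c.1)) ++ s)
    rw [act_gen]
    have h1 : (base δ).perm (Gn.nu f) (Sum.inl (hd c)) =
        Sum.inl (hd (c.1, c.2.1, fun r => c.2.2 r + Polynomial.C (f r) * c.1)) := by
      show Sum.inl ((hd c).1, (hd c).2.1, (hd c).2.2 + (hd c).1 • f) = _
      congr 3
      funext r
      simp only [hd, Pi.add_apply, Pi.smul_apply, smul_eq_mul, coeff_add, coeff_C_mul]
      ring
    have h2 : (base δ).sec (Gn.nu f) (Sum.inl (hd c)) = [(Gn.nu f, true)] := rfl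
    have h3 : (tl (c.1, c.2.1, fun r => c.2.2 r + Polynomial.C (f r) * c.1) : C N) =
        ((tl c).1, (tl c).2.1, fun r => (tl c).2.2 r + Polynomial.C (f r) * (tl c).1) := by
      simp only [tl, divX_add, divX_C_mul]
    rw [h1, h2, h3, ih]

theorem KW_proof : KW := by
  intro N S δ u i c s hs
  unfold kw
  rw [act_append, show ((Gn.nu u.f, true) :: (if u.sw then [(Gn.sg, true)] else []) : W (Gn N S)) =
    [(Gn.nu u.f, true)] ++ (if u.sw then [(Gn.sg, true)] else []) from rfl, act_append]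
  have h1 : (base δ).act (tr i c ++ s) (if u.sw then [(Gn.sg, true)] else []) =
      tr i (c.1, if u.sw then (c.2.2, c.2.1) else c.2) ++ s := by
    by_cases h : u.sw = true
    · rw [if_pos h, if_pos h, act_sg δ i c hs]
    · rw [if_neg h, if_neg h, act_one]
  rw [h1, act_nu δ u.f i _ hs]
  by_cases h : u.dbl = true
  · rw [if_pos h, show ([(Gn.mu, true), (Gn.mu, true)] : W (Gn N S)) =
      [(Gn.mu, true)] ++ [(Gn.mu, true)] from rfl, act_append, act_mu δ i _ hs, act_mu δ i _ hs]
    congr 2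
    simp only [upd, if_pos h]
    congr 1
    ring
  · rw [if_neg h, act_mu δ i _ hs]
    congr 2
    simp only [upd, if_neg h]
    congr 1
    ring

theorem act_mu_rep (k i : ℕ) (c : C N) {s : List (A N)}
    (hs : s = [] ∨ ∃ j : Fin 3, s = [Sum.inr j]) :
    (base δ).act (tr i c ++ s) (List.replicate k (Gn.mu, true)) =
      tr i (c.1 * (1 + X) ^ k, c.2) ++ s := by
  induction k generalizing c with
  | zero => simp [act_one]
  | succ k ih =>
    rw [List.replicate_succ, show ((Gn.mu, true) :: List.replicate k (Gn.mu, true) : W (Gn N S)) =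
      [(Gn.mu, true)] ++ List.replicate k (Gn.mu, true) from rfl, act_append, ih,
      act_mu δ i _ hs]
    congr 2
    rw [pow_succ]
    simp only [mul_assoc]

theorem act_src (r0 : Fin N) (n i : ℕ) {s : List (A N)}
    (hs : s = [] ∨ ∃ j : Fin 3, s = [Sum.inr j]) :
    (base δ).act (tr i (0, 0, 0) ++ s)
      (List.replicate n [(Gn.be (Pi.single r0 1), true), (Gn.la, true)]).flatten =
      tr i (0, Pi.single r0 (∑ i ∈ Finset.range n, (1 + X) ^ i), 0) ++ s := by
  induction n with
  | zero => simp [act_one]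
  | succ n ih =>
    rw [List.replicate_succ, List.flatten_cons, act_append, ih,
      show ([(Gn.be (Pi.single r0 1), true), (Gn.la, true)] : W (Gn N S)) =
      [(Gn.be (Pi.single r0 1), true)] ++ [(Gn.la, true)] from rfl, act_append,
      act_la δ i _ hs, act_be δ _ i _ hs]
    congr 3
    simp only
    congr 1
    funext r
    by_cases hr : r = r0
    · subst hr
      simp only [Pi.single_eq_same]
      rw [Finset.sum_range_succ', Finset.sum_mul]
      simp [pow_succ]
    · simp [Pi.single_eq_of_ne hr]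

theorem tr_zero (i : ℕ) : tr i (0 : C N) = List.replicate i (Sum.inl 0) := by
  induction i with
  | zero => rfl
  | succ i ih =>
    have h1 : hd (0 : C N) = 0 := by
      simp [hd]
      rfl
    have h2 : tl (0 : C N) = 0 := by
      simp [tl]
      rfl
    show Sum.inl (hd (0 : C N)) :: tr i (tl (0 : C N)) = _
    rw [h1, h2, ih, List.replicate_succ]

theorem IW_proof : IW := by
  intro N S δ r0 n i s hs
  unfold iw
  have h0 := act_src δ r0 n i hs
  rw [← tr_zero]
  rw [show ((Gn.al, true) :: (List.replicate (2 ^ n) (Gn.mu, true) ++ (Gn.al, true) ::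
    (List.replicate n [(Gn.be (Pi.single r0 1), true), (Gn.la, true)]).flatten) : W (Gn N S)) =
    [(Gn.al, true)] ++ (List.replicate (2 ^ n) (Gn.mu, true) ++ ([(Gn.al, true)] ++
    (List.replicate n [(Gn.be (Pi.single r0 1), true), (Gn.la, true)]).flatten)) from rfl]
  rw [act_append, act_append, act_append]
  rw [show (0 : C N) = (0, 0, 0) from rfl, h0, act_al δ i _ hs, act_mu_rep δ _ i _ hs,
    act_al δ i _ hs]
  congr 2
  unfold ic
  congr 1
  have h2 : ((1 : (ZMod 2)[X]) + X) ^ 2 ^ n = 1 + X ^ 2 ^ n := by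
    rw [add_pow_char_pow, one_pow]
  simp only [zero_add, one_mul]
  rw [h2]
  have h3 : (1 : (ZMod 2)[X]) + 1 = 0 := CharTwo.add_self_eq_zero 1
  linear_combination h3

end Pool.Agent.W565.LT
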